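import Mathlib
import Pool.Agent.H45.Lib.S8.H469R2.NK.KL

/-!
Elliott-Halberstam for almost all residues in short intervals: definitions.
-/

namespace Pool.Agent.H442R2.EHI

open Finset
open Pool.Agent.H469R2.NK (e)

/-- distance to the nearest integer -/
noncomputable def nint (x : ℝ) : ℝ := |x - round x|

/-- number of integers `g`, `|g| ≤ K`, with `‖g α‖ ≤ Δ` -/
noncomputable def nu (K : ℕ) (Δ α : ℝ) : ℕ :=
  ((Icc (-(K : ℤ)) K).filter (fun g : ℤ => nint (g * α) ≤ Δ)).card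

/-- Ramanujan sum `c_q(n)` -/
noncomputable def cq (q n : ℕ) : ℂ :=
  ∑ b ∈ (range q).filter (fun b => b.Coprime q), e ((b : ℝ) * n / q)

/-- truncated Ramanujan expansion of the von Mangoldt function -/
noncomputable def gg (Q n : ℕ) : ℂ :=
  ∑ q ∈ Icc 1 Q, (((ArithmeticFunction.moebius q : ℤ) : ℂ) / (Nat.totient q : ℂ)) * cq q n

/-- primes minus model, supported on `[2, x]` -/
noncomputable def ff (x Q n : ℕ) : ℂ :=
  if 2 ≤ n ∧ n ≤ x then (if n.Prime then 1 else 0) - gg Q n / (Real.log n : ℂ) else 0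

/-- `∑_{2 ≤ n ≤ y} 1 / log n` -/
noncomputable def lis (y : ℕ) : ℝ := ∑ n ∈ Icc 2 y, 1 / Real.log n

/-- `π(x; d, a)`: primes `p ≤ x`, `p ≡ a (mod d)` -/
noncomputable def piAP (x d a : ℕ) : ℝ :=
  (((Icc 1 x).filter (fun p => p.Prime ∧ p ≡ a [MOD d])).card : ℝ)

/-- exponential polynomial with frequencies `(h + θ)/N`, `h ∈ S` -/
noncomputable def poly (N : ℕ) (θ : ℝ) (S : Finset ℤ) (c : ℤ → ℂ) (y : ℝ) : ℂ :=
  ∑ h ∈ S, c h * e (-(y * (((h : ℝ) + θ) / N)))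

end Pool.Agent.H442R2.EHI
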